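import Pool.Agent.Helper30.BG.Goals

set_option autoImplicit false

open InnerProductSpace Metric Set Filter Topology MeasureTheory
open scoped ContDiff Laplacian

namespace Pool.Agent.Helper8.BG

open Pool.Agent.Helper30.BG

theorem bar (hMP : S_MP) : S_BAR := by
  intro S g M κ τ ρ x hτ hτρ hκ hS hg0 hgM hgx hL hS0 hSκ
  have hρ : 0 < ρ := hτ.trans hτρ
  have hinv : 0 < τ⁻¹ - ρ⁻¹ := by
    rw [sub_pos]
    exact (inv_lt_inv₀ hρ hτ).mpr hτρ
  set c : ℝ := κ / (τ⁻¹ - ρ⁻¹) with hc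
  have hcnn : 0 ≤ c := div_nonneg hκ hinv.le
  set v : E3 → ℝ := fun y => S y - c * (‖y - x‖⁻¹ - ρ⁻¹) with hv
  set Ω : Set E3 := ball x ρ \ closedBall x τ with hΩ
  have hopen : IsOpen Ω := isOpen_ball.sdiff isClosed_closedBall
  have hbdd : Bornology.IsBounded Ω := isBounded_ball.subset sdiff_subset
  have hcl : closure Ω ⊆ closedBall x ρ ∩ (ball x τ)ᶜ := by
    apply closure_minimal
    · rintro y ⟨h1, h2⟩
      exact ⟨ball_subset_closedBall h1, fun h => h2 (ball_subset_closedBall h)⟩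
    · exact isClosed_closedBall.inter isOpen_ball.isClosed_compl
  -- boundary values
  have hb1 : ∀ y, ‖y - x‖ = ρ → 0 ≤ v y := by
    intro y hy
    have h1 : y ∈ closedBall x ρ := by rw [mem_closedBall, dist_eq_norm, hy]
    have h2 := hS0 y h1
    show 0 ≤ S y - c * (‖y - x‖⁻¹ - ρ⁻¹)
    rw [hy, sub_self, mul_zero, sub_zero]
    exact h2
  have hb2 : ∀ y, ‖y - x‖ = τ → 0 ≤ v y := by
    intro y hy
    have h1 : y ∈ sphere x τ := by rw [mem_sphere, dist_eq_norm, hy]
    have h2 := hSκ y h1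
    show 0 ≤ S y - c * (‖y - x‖⁻¹ - ρ⁻¹)
    have h3 : c * (τ⁻¹ - ρ⁻¹) = κ := by rw [hc, div_mul_cancel₀ _ hinv.ne']
    rw [hy, h3]
    linarith
  have hHD : ∀ y, 0 < ‖y - x‖ → HD2 v y
      ((fun i => pd i S y) - c • (fun i => - ((y i - x i) * (‖y - x‖ ^ 3)⁻¹))) (Δ S y - c * 0) := by
    intro y hy
    have hne : y ≠ x := by
      intro h
      rw [h, sub_self, norm_zero] at hy
      exact lt_irrefl _ hy
    exact (HD2.mk' (hS.contDiffAt (x := y))).sub (((HD2.newton hne).sub_const ρ⁻¹).const_mul c)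
  have hpos : ∀ y ∈ closure Ω, 0 < ‖y - x‖ := by
    intro y hy
    have h1 := (hcl hy).2
    rw [mem_compl_iff, mem_ball, dist_eq_norm, not_lt] at h1
    linarith
  have hmain := hMP Ω v g M hopen hbdd
    (fun y hy => (hHD y (hpos y hy)).cd.continuousAt.continuousWithinAt)
    (fun y hy => (hHD y (hpos y (subset_closure hy))).cd)
    (fun y _ => by rw [abs_of_nonneg (hg0 y)]; exact hgM y)
    (by
      intro y hy
      have h1 := hHD y (hpos y (subset_closure hy))
      rw [h1.lap, h1.pd 0]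
      have h2 := hL y hy.1
      have h3 : 2 * g y * (((fun i => pd i S y) - c • (fun i => - ((y i - x i) *
          (‖y - x‖ ^ 3)⁻¹))) 0) = 2 * g y * pd 0 S y + 2 * c * (g y * (y 0 - x 0)) *
          (‖y - x‖ ^ 3)⁻¹ := by
        simp only [Pi.sub_apply, Pi.smul_apply, smul_eq_mul]
        ring
      rw [h3]
      have h4 : g y * (y 0 - x 0) ≤ 0 := by
        rcases le_or_gt (y 0) (x 0) with h | h
        · exact mul_nonpos_of_nonneg_of_nonpos (hg0 y) (by linarith)
        · rw [hgx y hy.1 h, zero_mul]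
      have h5 : 2 * c * (g y * (y 0 - x 0)) * (‖y - x‖ ^ 3)⁻¹ ≤ 0 := by
        apply mul_nonpos_of_nonpos_of_nonneg
        · exact mul_nonpos_of_nonneg_of_nonpos (by positivity) h4
        · positivity
      linarith)
    (by
      intro y hy
      have hycl : y ∈ closure Ω := frontier_subset_closure hy
      have hyn : y ∉ Ω := by
        rw [← hopen.interior_eq]
        exact hy.2
      obtain ⟨h1, h2⟩ := hcl hycl
      rw [mem_closedBall, dist_eq_norm] at h1
      rw [mem_compl_iff, mem_ball, dist_eq_norm, not_lt] at h2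
      rcases h1.eq_or_lt with h3 | h3
      · exact hb1 y h3
      rcases h2.eq_or_lt with h4 | h4
      · exact hb2 y h4.symm
      exfalso
      apply hyn
      refine ⟨?_, ?_⟩
      · rw [mem_ball, dist_eq_norm]; exact h3
      · rw [mem_closedBall, dist_eq_norm, not_le]; exact h4)
  intro y hy hτy
  have h1 : ‖y - x‖ ≤ ρ := by rw [← dist_eq_norm]; exact hy
  have h2 : 0 ≤ v y := by
    rcases h1.eq_or_lt with h3 | h3
    · exact hb1 y h3
    rcases hτy.eq_or_lt with h4 | h4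
    · exact hb2 y h4.symm
    apply hmain y
    apply subset_closure
    refine ⟨?_, ?_⟩
    · rw [mem_ball, dist_eq_norm]; exact h3
    · rw [mem_closedBall, dist_eq_norm, not_le]; exact h4
  have h3 : 0 ≤ S y - c * (‖y - x‖⁻¹ - ρ⁻¹) := h2
  have h4 : κ * (‖y - x‖⁻¹ - ρ⁻¹) / (τ⁻¹ - ρ⁻¹) = c * (‖y - x‖⁻¹ - ρ⁻¹) := by
    rw [hc]; ring
  rw [h4]
  linarith

end Pool.Agent.Helper8.BG
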