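import Pool.Agent.Helper30.BG.Goals

set_option autoImplicit false

open InnerProductSpace Metric Set Filter Topology MeasureTheory
open scoped ContDiff Laplacian

namespace Pool.Agent.Helper8.BG

open Pool.Agent.Helper30.BG

theorem pl (hMP : S_MP) : S_PL := by
  intro W s m hW hL hbd hlow x hx
  rcases hx.eq_or_lt with h0 | hlt
  · exact hbd x h0.symm
  set t₀ : ℝ := x 0 - s with ht₀def
  have ht₀ : 0 < t₀ := by rw [ht₀def]; linarith
  apply le_of_forall_pos_le_add
  intro ε hε
  set δ : ℝ := ε / (6 * t₀) with hδdef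
  have hδ : 0 < δ := by positivity
  obtain ⟨C0, hC0⟩ := hlow δ hδ
  set C : ℝ := |C0| with hC
  have hCnn : 0 ≤ C := abs_nonneg _
  set q : E3 := x + (s - x 0) • eb 0 with hq
  have q0 : q 0 = s := by simp [hq, eb_apply]
  have q1 : q 1 = x 1 := by simp [hq, eb_apply]
  have q2 : q 2 = x 2 := by simp [hq, eb_apply]
  set A : ℝ := δ * ‖q‖ + C + |m| with hA
  have hAnn : 0 ≤ A := by positivity
  set R : ℝ := t₀ + 6 * t₀ * A / ε + 1 with hR
  have hR0 : 0 < R := by positivity
  have hRt : t₀ < R := by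
    have : 0 ≤ 6 * t₀ * A / ε := by positivity
    linarith
  have hRA : 6 * t₀ * A ≤ ε * R := by
    have h1 : ε * (6 * t₀ * A / ε) = 6 * t₀ * A := by field_simp
    have h2 : ε * R = ε * (6 * t₀ * A / ε) + ε * (t₀ + 1) := by rw [hR]; ring
    rw [h2, h1]
    have : 0 ≤ ε * (t₀ + 1) := by positivity
    linarith
  set N : ℝ := A + δ * R with hN
  have hNnn : 0 ≤ N := by positivity
  have hNR : 3 * t₀ * N ≤ ε * R := by
    have h1 : 3 * t₀ * (δ * R) = ε * R / 2 := by rw [hδdef]; field_simp; ring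
    rw [hN, mul_add, h1]
    linarith
  set h : E3 → ℝ := fun y => pbar s (x 1) (x 2) R (refl s y) with hh
  have hform : ∀ y, h y = ((y 1 - x 1) ^ 2 + (y 2 - x 2) ^ 2 - 2 * (y 0 - s) ^ 2 +
      3 * R * (y 0 - s)) / R ^ 2 := by
    intro y
    simp only [hh, pbar, refl_zero, refl_one, refl_two]
    congr 1
    ring
  have hHD : ∀ y, HD2 h y (fun i => if i = 0 then
      - (if i = 0 then (4 * (s - refl s y 0) - 3 * R) / R ^ 2
        else if i = 1 then 2 * (refl s y 1 - x 1) / R ^ 2 else 2 * (refl s y 2 - x 2) / R ^ 2)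
      else (if i = 0 then (4 * (s - refl s y 0) - 3 * R) / R ^ 2
        else if i = 1 then 2 * (refl s y 1 - x 1) / R ^ 2 else 2 * (refl s y 2 - x 2) / R ^ 2)) 0 :=
    fun y => (HD2.pbar (refl s y)).reflect
  have hnorm : ∀ y : E3, ‖y - q‖ ^ 2 = (y 0 - s) ^ 2 + (y 1 - x 1) ^ 2 + (y 2 - x 2) ^ 2 := by
    intro y
    rw [norm_sq_eq]
    simp only [PiLp.sub_apply, q0, q1, q2]
  have hc0 : Continuous fun y : E3 => y 0 := by fun_prop
  set Ω : Set E3 := {y | s < y 0} ∩ ball q R with hΩ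
  have hopen : IsOpen Ω := (isOpen_lt continuous_const hc0).inter isOpen_ball
  have hbdd : Bornology.IsBounded Ω := isBounded_ball.subset inter_subset_right
  have hcl : closure Ω ⊆ {y | s ≤ y 0} ∩ closedBall q R := by
    apply closure_minimal
    · rintro y ⟨h1, h2⟩
      exact ⟨(show s ≤ y 0 from le_of_lt h1), ball_subset_closedBall h2⟩
    · exact (isClosed_le continuous_const hc0).inter isClosed_closedBall
  set v : E3 → ℝ := fun y => (W y - m) + N * h y with hv
  have hvHD : ∀ y, ContDiffAt ℝ 2 v y ∧ Δ v y = Δ W y := by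
    intro y
    have h1 := ((HD2.mk' (hW.contDiffAt (x := y))).sub_const m).add ((hHD y).const_mul N)
    refine ⟨h1.cd, ?_⟩
    rw [h1.lap]
    ring
  have hmain := hMP Ω v (fun _ => 0) 0 hopen hbdd ?_ (fun y _ => (hvHD y).1) (fun y _ => by simp)
    ?_ ?_ x ?_
  · -- conclusion
    have h1 : 0 ≤ (W x - m) + N * h x := hmain
    have h2 : N * h x ≤ ε := by
      rw [hform x, sub_self, sub_self, ← ht₀def, ← mul_div_assoc, div_le_iff₀ (by positivity)]
      have h3 : N * (0 ^ 2 + 0 ^ 2 - 2 * t₀ ^ 2 + 3 * R * t₀) ≤ (3 * t₀ * N) * R := by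
        nlinarith [mul_nonneg hNnn (sq_nonneg t₀)]
      refine h3.trans ?_
      calc 3 * t₀ * N * R ≤ ε * R * R := mul_le_mul_of_nonneg_right hNR hR0.le
        _ = ε * R ^ 2 := by ring
    linarith
  · -- continuity
    intro y _
    exact (hvHD y).1.continuousAt.continuousWithinAt
  · -- superharmonic
    intro y hy
    rw [(hvHD y).2]
    have := hL y hy.1
    linarith
  · -- frontier
    intro y hy
    have hycl : y ∈ closure Ω := frontier_subset_closure hy
    have hyn : y ∉ Ω := by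
      rw [← hopen.interior_eq]
      exact hy.2
    obtain ⟨hy0, hyR⟩ := hcl hycl
    have hy0' : s ≤ y 0 := hy0
    have hyR' : ‖y - q‖ ≤ R := by
      rw [← dist_eq_norm]; exact hyR
    show 0 ≤ (W y - m) + N * h y
    by_cases hc : y 0 = s
    · have h1 := hbd y hc
      have h2 : 0 ≤ h y := by
        rw [hform y, hc]
        have : (y 1 - x 1) ^ 2 + (y 2 - x 2) ^ 2 - 2 * (s - s) ^ 2 + 3 * R * (s - s) =
          (y 1 - x 1) ^ 2 + (y 2 - x 2) ^ 2 := by ring
        rw [this]
        positivity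
      have h3 := mul_nonneg hNnn h2
      linarith
    · have hgt : s < y 0 := lt_of_le_of_ne hy0' (Ne.symm hc)
      have hRe : ‖y - q‖ = R := by
        apply le_antisymm hyR'
        by_contra hlt'
        push Not at hlt'
        apply hyn
        refine ⟨hgt, ?_⟩
        rw [mem_ball, dist_eq_norm]
        exact hlt'
      have hsq := hnorm y
      rw [hRe] at hsq
      have hle : y 0 - s ≤ R := by
        have e1 := sq_nonneg (y 1 - x 1)
        have e2 := sq_nonneg (y 2 - x 2)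
        have e3 : (y 0 - s) ^ 2 ≤ R ^ 2 := by rw [hsq]; linarith
        exact (sq_le_sq₀ (sub_nonneg.mpr hy0') hR0.le).mp e3
      have h1 : 1 ≤ h y := by
        have e := mul_nonneg (sub_nonneg.mpr hy0') (sub_nonneg.mpr hle)
        have e4 : (y 1 - x 1) ^ 2 + (y 2 - x 2) ^ 2 = R ^ 2 - (y 0 - s) ^ 2 := by
          rw [hsq]; ring
        rw [hform y, le_div_iff₀ (by positivity), e4, one_mul]
        have e5 : R ^ 2 - (y 0 - s) ^ 2 - 2 * (y 0 - s) ^ 2 + 3 * R * (y 0 - s) =
          R ^ 2 + 3 * ((y 0 - s) * (R - (y 0 - s))) := by ring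
        rw [e5]
        linarith
      have h2 := hC0 y hy0'
      have h3 : ‖y‖ ≤ ‖q‖ + R := by
        calc ‖y‖ = ‖(y - q) + q‖ := by rw [sub_add_cancel]
          _ ≤ ‖y - q‖ + ‖q‖ := norm_add_le _ _
          _ = ‖q‖ + R := by rw [hRe]; ring
      have h4 : δ * ‖y‖ ≤ δ * (‖q‖ + R) := mul_le_mul_of_nonneg_left h3 hδ.le
      have h5 : C0 ≤ C := le_abs_self C0
      have h6 : m ≤ |m| := le_abs_self m
      have h7 : N ≤ N * h y := le_mul_of_one_le_right hNnn h1
      have h8 : N = δ * ‖q‖ + C + |m| + δ * R := by rw [hN, hA]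
      linarith
  · apply subset_closure
    refine ⟨hlt, ?_⟩
    rw [mem_ball, dist_eq_norm]
    have h1 := hnorm x
    rw [sub_self, sub_self, ← ht₀def] at h1
    have h2 : ‖x - q‖ = t₀ := by
      have h3 : ‖x - q‖ ^ 2 = t₀ ^ 2 := by rw [h1]; ring
      exact (sq_eq_sq₀ (norm_nonneg _) ht₀.le).mp h3
    rw [h2]
    exact hRt

end Pool.Agent.Helper8.BG
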